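import Pool.Agent.helper37.VN.Alm

set_option autoImplicit false

/-!
# MP_d1a67f_al : the v-number is at most the regularity for almost all connected graphs

The closed neighbourhood ideal `𝒩_G` of a graph `G` on `n` labelled vertices has `v(𝒩_G) ≤ reg(S/𝒩_G)`, over every
field, for all connected graphs on `n` vertices except a proportion which tends to zero.
-/

namespace Pool.Agent.Results.MP_d1a67f_al.AlmostAllGraphs

open MvPolynomial Filter Topology
open scoped Classical

noncomputable section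

/-- The closed neighbourhood `N[v]`. -/
def nbhd {V : Type*} [Fintype V] (G : SimpleGraph V) (v : V) : Finset V :=
  Finset.univ.filter (fun u => u = v ∨ G.Adj v u)

/-- The closed neighbourhood ideal `𝒩_G` in the polynomial ring in the vertices of `G`. -/
def nbhdIdeal (K : Type*) [Field K] {V : Type*} [Fintype V] (G : SimpleGraph V) : Ideal (MvPolynomial V K) :=
  Ideal.span (Set.range (fun v => ∏ u ∈ nbhd G v, (X u : MvPolynomial V K)))

/-- The v-number: the least `d` such that `(I : f)` is an associated prime `P` of `S/I` for some `f` of degree `d`. -/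
def vNumber {K : Type*} [Field K] {V : Type*} (I : Ideal (MvPolynomial V K)) : ℕ∞ :=
  ⨅ d : {d : ℕ // ∃ f : MvPolynomial V K, f.IsHomogeneous d ∧
    ∃ P ∈ associatedPrimes (MvPolynomial V K) (MvPolynomial V K ⧸ I), ∀ g, g ∈ P ↔ g * f ∈ I}, (d.1 : ℕ∞)

/-- The chains of degree `i` of the Koszul complex: alternating families indexed by the `i`-tuples of variables. -/
def IsAlt {V M : Type*} [AddCommGroup M] {i : ℕ} (z : (Fin i → V) → M) : Prop :=
  (∀ a, ¬ Function.Injective a → z a = 0) ∧
    ∀ (a : Fin i → V) (σ : Equiv.Perm (Fin i)), z (a ∘ σ) = ((Equiv.Perm.sign σ : ℤˣ) : ℤ) • z a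

/-- The differential of the Koszul complex of `S/I` on the variables: `(∂w)(a) = ∑ v, x_v w(v, a)`. -/
def koszulD {K : Type*} [Field K] {V : Type*} [Fintype V] (I : Ideal (MvPolynomial V K)) {i : ℕ}
    (w : (Fin (i + 1) → V) → MvPolynomial V K ⧸ I) (a : Fin i → V) : MvPolynomial V K ⧸ I :=
  ∑ v, Ideal.Quotient.mk I (X v) * w (Fin.cons v a)

/-- The cycles of the Koszul complex. -/
def IsCycle {K : Type*} [Field K] {V : Type*} [Fintype V] (I : Ideal (MvPolynomial V K)) :
    ∀ {i : ℕ}, ((Fin i → V) → MvPolynomial V K ⧸ I) → Prop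
  | 0, _ => True
  | _ + 1, z => ∀ a, koszulD I z a = 0

/-- The Koszul homology `H_i(x; S/I) = Tor_i(S/I, K)` is not zero in degree `i + e`: there is a cycle whose values are
classes of forms of degree `e` and which is not a boundary. -/
def TorNeZero {K : Type*} [Field K] {V : Type*} [Fintype V] (I : Ideal (MvPolynomial V K)) (i e : ℕ) : Prop :=
  ∃ z : (Fin i → V) → MvPolynomial V K ⧸ I, IsAlt z ∧
    (∀ a, ∃ p : MvPolynomial V K, p.IsHomogeneous e ∧ Ideal.Quotient.mk I p = z a) ∧ IsCycle I z ∧
    ¬ ∃ w : (Fin (i + 1) → V) → MvPolynomial V K ⧸ I, IsAlt w ∧ ∀ a, z a = koszulD I w a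

/-- The Castelnuovo-Mumford regularity of `S/I`: the largest `e` such that `Tor_i(S/I, K)_{i+e} ≠ 0` for some `i`. -/
def reg {K : Type*} [Field K] {V : Type*} [Fintype V] (I : Ideal (MvPolynomial V K)) : ℕ∞ :=
  ⨆ e : {e : ℕ // ∃ i, TorNeZero I i e}, (e.1 : ℕ∞)

/-- Among the connected graphs on `n` labelled vertices the proportion of those with `v(𝒩_G) ≤ reg(S/𝒩_G)` over every
field tends to one. -/
theorem result.{u} :
    Tendsto (fun n : ℕ =>
      (Nat.card {G : SimpleGraph (Fin n) // G.Connected ∧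
        ∀ (K : Type u) [Field K], vNumber (nbhdIdeal K G) ≤ reg (nbhdIdeal K G)} : ℝ) /
      (Nat.card {G : SimpleGraph (Fin n) // G.Connected} : ℝ)) atTop (𝓝 1) := by
  have hF : ∀ (n : ℕ) (G : SimpleGraph (Fin n)), Pool.Agent.helper37.VN.HasF G →
      ∀ (K : Type u) [Field K], vNumber (nbhdIdeal K G) ≤ reg (nbhdIdeal K G) := by
    intro n G h K _
    exact Pool.Agent.helper37.VN.vNumber_le_reg_of_hasF K G h
  refine tendsto_of_tendsto_of_tendsto_of_le_of_le Pool.Agent.helper37.VN.tendsto_hasF tendsto_const_nhds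
    (fun n => ?_) (fun n => ?_)
  · exact div_le_div_of_nonneg_right
      (Pool.Agent.helper37.VN.cnt_mono fun G hG => ⟨hG.1, fun K _ => hF n G hG.2 K⟩)
      (Pool.Agent.helper37.VN.cnt_nonneg _)
  · exact div_le_one_of_le₀ (Pool.Agent.helper37.VN.cnt_mono fun G hG => hG.1)
      (Pool.Agent.helper37.VN.cnt_nonneg _)

end

end Pool.Agent.Results.MP_d1a67f_al.AlmostAllGraphs
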