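import Pool.Agent.helper37.VN.Exa

set_option autoImplicit false

/-!
# MP_d1a67f_al : the v-number is at most the regularity for graphs with `α = θ` and for exact domination

`v(𝒩_G) ≤ n - α(G) ≤ reg(S/𝒩_G)` for every graph whose independence number equals its clique cover number, and
`v(𝒩_G) ≤ reg(S/𝒩_G)` for every graph with a dominating set `D` which, for some vertex set `W`, is met in exactly one
vertex by each closed neighbourhood contained in `W`, these closed neighbourhoods covering `D`. Over every field.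
-/

namespace Pool.Agent.Results.MP_d1a67f_al.CliqueCoversAndCodes

open MvPolynomial
open scoped Classical

noncomputable section

/-- The closed neighbourhood `N[v]`. -/
def nbhd {V : Type*} [Fintype V] (G : SimpleGraph V) (v : V) : Finset V :=
  Finset.univ.filter (fun u => u = v ∨ G.Adj v u)

/-- The closed neighbourhood ideal `𝒩_G` in the polynomial ring in the vertices of `G`. -/
def nbhdIdeal (K : Type*) [Field K] {V : Type*} [Fintype V] (G : SimpleGraph V) : Ideal (MvPolynomial V K) :=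
  Ideal.span (Set.range (fun v => ∏ u ∈ nbhd G v, (X u : MvPolynomial V K)))

/-- The v-number: the least `d` such that `(I : f)` is an associated prime `P` of `S/I` for some `f` of degree `d`. -/
def vNumber {K : Type*} [Field K] {V : Type*} (I : Ideal (MvPolynomial V K)) : ℕ∞ :=
  ⨅ d : {d : ℕ // ∃ f : MvPolynomial V K, f.IsHomogeneous d ∧
    ∃ P ∈ associatedPrimes (MvPolynomial V K) (MvPolynomial V K ⧸ I), ∀ g, g ∈ P ↔ g * f ∈ I}, (d.1 : ℕ∞)

/-- The chains of degree `i` of the Koszul complex: alternating families indexed by the `i`-tuples of variables. -/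
def IsAlt {V M : Type*} [AddCommGroup M] {i : ℕ} (z : (Fin i → V) → M) : Prop :=
  (∀ a, ¬ Function.Injective a → z a = 0) ∧
    ∀ (a : Fin i → V) (σ : Equiv.Perm (Fin i)), z (a ∘ σ) = ((Equiv.Perm.sign σ : ℤˣ) : ℤ) • z a

/-- The differential of the Koszul complex of `S/I` on the variables: `(∂w)(a) = ∑ v, x_v w(v, a)`. -/
def koszulD {K : Type*} [Field K] {V : Type*} [Fintype V] (I : Ideal (MvPolynomial V K)) {i : ℕ}
    (w : (Fin (i + 1) → V) → MvPolynomial V K ⧸ I) (a : Fin i → V) : MvPolynomial V K ⧸ I :=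
  ∑ v, Ideal.Quotient.mk I (X v) * w (Fin.cons v a)

/-- The cycles of the Koszul complex. -/
def IsCycle {K : Type*} [Field K] {V : Type*} [Fintype V] (I : Ideal (MvPolynomial V K)) :
    ∀ {i : ℕ}, ((Fin i → V) → MvPolynomial V K ⧸ I) → Prop
  | 0, _ => True
  | _ + 1, z => ∀ a, koszulD I z a = 0

/-- The Koszul homology `H_i(x; S/I) = Tor_i(S/I, K)` is not zero in degree `i + e`: there is a cycle whose values are
classes of forms of degree `e` and which is not a boundary. -/
def TorNeZero {K : Type*} [Field K] {V : Type*} [Fintype V] (I : Ideal (MvPolynomial V K)) (i e : ℕ) : Prop :=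
  ∃ z : (Fin i → V) → MvPolynomial V K ⧸ I, IsAlt z ∧
    (∀ a, ∃ p : MvPolynomial V K, p.IsHomogeneous e ∧ Ideal.Quotient.mk I p = z a) ∧ IsCycle I z ∧
    ¬ ∃ w : (Fin (i + 1) → V) → MvPolynomial V K ⧸ I, IsAlt w ∧ ∀ a, z a = koszulD I w a

/-- The Castelnuovo-Mumford regularity of `S/I`: the largest `e` such that `Tor_i(S/I, K)_{i+e} ≠ 0` for some `i`. -/
def reg {K : Type*} [Field K] {V : Type*} [Fintype V] (I : Ideal (MvPolynomial V K)) : ℕ∞ :=
  ⨆ e : {e : ℕ // ∃ i, TorNeZero I i e}, (e.1 : ℕ∞)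

/-- `D` is a dominating set. -/
def Dominates {V : Type*} [Fintype V] (G : SimpleGraph V) (D : Finset V) : Prop := ∀ v, ∃ d ∈ D, d ∈ nbhd G v

/-- For every finite graph `G` and field `K`:
(1) if the clique cover number of `G` equals the independence number, then `v(𝒩_G) ≤ n - α(G) ≤ reg(S/𝒩_G)`;
(2) if `D` is a dominating set, `W` a vertex set, each `d ∈ D` is in some `N[v] ⊆ W`, and each `N[v] ⊆ W` meets `D` in
only one vertex, then `v(𝒩_G) ≤ reg(S/𝒩_G)`;
(3) if `D ⊆ W` is a dominating set, `c` a retraction of `W` onto `D`, each `d ∈ D` is the only element of `D` in some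
`N[v] ⊆ W`, and each `N[v] ⊆ W` contains a fibre of `c`, then `v(𝒩_G) ≤ |W \ D| ≤ reg(S/𝒩_G)`. -/
theorem result.{u, w} (V : Type w) [Fintype V] (G : SimpleGraph V) (K : Type u) [Field K] :
    (Gᶜ.chromaticNumber = (G.indepNum : ℕ∞) →
      vNumber (nbhdIdeal K G) ≤ ((Fintype.card V - G.indepNum : ℕ) : ℕ∞) ∧
        ((Fintype.card V - G.indepNum : ℕ) : ℕ∞) ≤ reg (nbhdIdeal K G)) ∧
    (∀ D W : Finset V, Dominates G D → (∀ d ∈ D, ∃ v, nbhd G v ⊆ W ∧ d ∈ nbhd G v) →
      (∀ v, nbhd G v ⊆ W → ∀ d ∈ D, ∀ d' ∈ D, d ∈ nbhd G v → d' ∈ nbhd G v → d = d') →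
      vNumber (nbhdIdeal K G) ≤ reg (nbhdIdeal K G)) ∧
    (∀ (D W : Finset V) (c : V → V), D ⊆ W → Dominates G D → (∀ u ∈ W, c u ∈ D) → (∀ d ∈ D, c d = d) →
      (∀ d ∈ D, ∃ v, nbhd G v ⊆ W ∧ ∀ d' ∈ D, d' ∈ nbhd G v ↔ d' = d) →
      (∀ v, nbhd G v ⊆ W → ∃ d ∈ D, ∀ u ∈ W, c u = d → u ∈ nbhd G v) →
      vNumber (nbhdIdeal K G) ≤ (((W \ D).card : ℕ) : ℕ∞) ∧ (((W \ D).card : ℕ) : ℕ∞) ≤ reg (nbhdIdeal K G)) := by
  have h3 : ∀ (D W : Finset V) (c : V → V), Pool.Agent.helper37.VN.HasP G D W c →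
      vNumber (nbhdIdeal K G) ≤ (((W \ D).card : ℕ) : ℕ∞) ∧ (((W \ D).card : ℕ) : ℕ∞) ≤ reg (nbhdIdeal K G) := by
    intro D W c h
    exact ⟨Pool.Agent.helper37.VN.vNumber_le_of_hasP K G D W c h, Pool.Agent.helper37.VN.le_reg_of_hasP K G D W c h⟩
  refine ⟨fun hG => ?_, fun D W hD h1 h2 => ?_, fun D W c hDW hD h1 h2 h4 h5 => ?_⟩
  · obtain ⟨A, hA⟩ := G.exists_isNIndepSet_indepNum
    have hcol : Gᶜ.Colorable G.indepNum := by
      rw [← SimpleGraph.chromaticNumber_le_iff_colorable, hG]
    obtain ⟨C⟩ := hcol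
    have hind : ∀ a ∈ A, ∀ b ∈ A, ¬ G.Adj a b := by
      intro a ha b hb hab
      exact hA.isIndepSet ha hb hab.ne hab
    -- the colouring is injective on `A`, so bijective onto the colours
    have hinj : Set.InjOn C A := by
      intro a ha b hb hab
      by_contra hne
      exact C.valid ((SimpleGraph.compl_adj _ _ _).mpr ⟨hne, hind a ha b hb⟩) hab
    have hsurj : ∀ i : Fin G.indepNum, ∃ a ∈ A, C a = i := by
      have hcard : (A.image C).card = Fintype.card (Fin G.indepNum) := by
        rw [Finset.card_image_of_injOn hinj, hA.card_eq, Fintype.card_fin]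
      have huniv : A.image C = Finset.univ := Finset.eq_univ_of_card _ hcard
      intro i
      have : i ∈ A.image C := huniv ▸ Finset.mem_univ i
      obtain ⟨a, ha, hai⟩ := Finset.mem_image.mp this
      exact ⟨a, ha, hai⟩
    choose f hfA hfC using hsurj
    have hP : Pool.Agent.helper37.VN.HasP G A Finset.univ (fun v => f (C v)) := by
      refine Pool.Agent.helper37.VN.hasP_of_retract G A (fun v => f (C v)) hind (fun v => hfA _)
        (fun a ha => hinj (hfA _) ha (hfC _)) (fun u v huv hne => ?_)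
      have hc : C u = C v := by
        have := congrArg C huv
        simpa [hfC] using this
      by_contra hadj
      exact C.valid ((SimpleGraph.compl_adj _ _ _).mpr ⟨hne, hadj⟩) hc
    have h := h3 A Finset.univ _ hP
    have hcard : (Finset.univ \ A).card = Fintype.card V - G.indepNum := by
      rw [Finset.card_sdiff_of_subset (Finset.subset_univ A), Finset.card_univ, hA.card_eq]
    rw [hcard] at h
    exact h
  · obtain ⟨W', c, hP⟩ := Pool.Agent.helper37.VN.hasP_of_exact G D W hD h1 h2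
    exact le_trans (h3 D W' c hP).1 (h3 D W' c hP).2
  · exact h3 D W c ⟨hDW, hD, h1, h2, h4, h5⟩

end

end Pool.Agent.Results.MP_d1a67f_al.CliqueCoversAndCodes
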