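import Pool.Agent.helper35.VN.VnB
import Pool.Agent.helper35.VN.TauC

set_option autoImplicit false

/-!
# MP_d1a67f_al : a connected graph whose v-number is larger than the regularity

There is a connected graph `G` on 28 vertices with `v(𝒩_G) = 25` and `reg(S/𝒩_G) ≤ 24` over every field. So the answer
to the question is negative.

The complement `H` of `G` has as vertices the 18 points of a grid `3 × 6`, its 3 rows, its 6 columns and one vertex `w`;
each point is adjacent to `w`, to its row, to its column and to its image under a fixed point free involution `τ` of the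
grid, and each row is adjacent to each column. The involution maps rows to transversals of the columns. The neighbourhood
complex `N(H)` is homotopy equivalent to a square complex whose universal cover is a product of two trees; each two
vertices span an edge of it and the links of the vertices are flag complexes, so that a set containing only one minimal
nonface has three vertices, which gives `v(𝒩_G) = n - 3`; and for the involution chosen the first homology of `N(H)` is
zero, so that the depth of `K[N(H)]` is at least three, which gives `reg(S/𝒩_G) ≤ n - 4`.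
-/

namespace Pool.Agent.Results.MP_d1a67f_al.Counterexample

open MvPolynomial

noncomputable section

open scoped Classical in
/-- The closed neighbourhood `N[v]`. -/
def nbhd {V : Type*} [Fintype V] (G : SimpleGraph V) (v : V) : Finset V :=
  Finset.univ.filter (fun u => u = v ∨ G.Adj v u)

/-- The closed neighbourhood ideal `𝒩_G` in the polynomial ring in the vertices of `G`. -/
def nbhdIdeal (K : Type*) [Field K] {V : Type*} [Fintype V] (G : SimpleGraph V) : Ideal (MvPolynomial V K) :=
  Ideal.span (Set.range (fun v => ∏ u ∈ nbhd G v, (X u : MvPolynomial V K)))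

/-- The v-number: the least `d` such that `(I : f)` is an associated prime `P` of `S/I` for some `f` of degree `d`. -/
def vNumber {K : Type*} [Field K] {V : Type*} (I : Ideal (MvPolynomial V K)) : ℕ∞ :=
  ⨅ d : {d : ℕ // ∃ f : MvPolynomial V K, f.IsHomogeneous d ∧
    ∃ P ∈ associatedPrimes (MvPolynomial V K) (MvPolynomial V K ⧸ I), ∀ g, g ∈ P ↔ g * f ∈ I}, (d.1 : ℕ∞)

/-- The differential of the Koszul complex `K(x; S/I)` on the variables. A chain `∑_T z_T e_T` is given by its
coefficients `z_T ∈ S/I`, and `∂(e_T) = ∑_{v ∈ T} (-1)^{#{u ∈ T, u < v}} x_v e_{T ∖ v}`. -/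
def koszulD {K : Type*} [Field K] {V : Type*} [Fintype V] [LinearOrder V] (I : Ideal (MvPolynomial V K))
    (z : Finset V → MvPolynomial V K ⧸ I) (T : Finset V) : MvPolynomial V K ⧸ I :=
  ∑ v ∈ Finset.univ \ T, (-1) ^ (T.filter (fun u => u < v)).card * (Ideal.Quotient.mk I (X v) * z (insert v T))

/-- The Koszul homology `H_i(x; S/I) = Tor_i(S/I, K)` is not zero in degree `i + e`: there is a cycle in homological
degree `i` (supported on sets `T` with `i` elements) whose coefficients are classes of forms of degree `e` and which is
not the boundary of a chain in homological degree `i + 1`. -/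
def TorNeZero {K : Type*} [Field K] {V : Type*} [Fintype V] [LinearOrder V] (I : Ideal (MvPolynomial V K))
    (i e : ℕ) : Prop :=
  ∃ z : Finset V → MvPolynomial V K ⧸ I, (∀ T, T.card ≠ i → z T = 0) ∧
    (∀ T, ∃ p : MvPolynomial V K, p.IsHomogeneous e ∧ Ideal.Quotient.mk I p = z T) ∧
    (∀ T, koszulD I z T = 0) ∧
    ¬ ∃ w : Finset V → MvPolynomial V K ⧸ I, (∀ T, T.card ≠ i + 1 → w T = 0) ∧ ∀ T, z T = koszulD I w T

/-- The Castelnuovo-Mumford regularity of `S/I`: the largest `e` such that `Tor_i(S/I, K)_{i+e} ≠ 0` for some `i`. -/
def reg {K : Type*} [Field K] {V : Type*} [Fintype V] [LinearOrder V] (I : Ideal (MvPolynomial V K)) : ℕ∞ :=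
  ⨆ e : {e : ℕ // ∃ i, TorNeZero I i e}, (e.1 : ℕ∞)

/-- There is a connected graph on 28 vertices whose closed neighbourhood ideal has, over every field, v-number 25 and
regularity at most 24. -/
theorem result.{u} : ∃ G : SimpleGraph (Fin 28), G.Connected ∧ ∀ (K : Type u) [Field K],
    vNumber (nbhdIdeal K G) = 25 ∧ reg (nbhdIdeal K G) ≤ 24 := by
  have hcard : Fintype.card (Pool.Agent.helper35.VN.Vt (Fin 3) (Fin 6)) = 28 := by decide
  obtain ⟨e⟩ : Nonempty (Fin 28 ≃ Pool.Agent.helper35.VN.Vt (Fin 3) (Fin 6)) :=
    ⟨(Fintype.equivFinOfCardEq hcard).symm⟩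
  refine ⟨Pool.Agent.helper35.VN.tg Pool.Agent.helper35.VN.tau_good e,
    Pool.Agent.helper35.VN.tg_connected Pool.Agent.helper35.VN.tau_good e, fun K _ => ⟨?_, ?_⟩⟩
  · have h := Pool.Agent.helper35.VN.tg_v Pool.Agent.helper35.VN.tau_good e K
    rw [Fintype.card_fin] at h
    exact h
  · have h := Pool.Agent.helper35.VN.tg_reg Pool.Agent.helper35.VN.tau_good e K
      (Pool.Agent.helper35.VN.tau_rigid _)
    rw [Fintype.card_fin] at h
    exact h

end

end Pool.Agent.Results.MP_d1a67f_al.Counterexample
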